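import Pool.Agent.Zk51.BP.Total

/-!
# The perfectness of the motivic cup product pairings for the powers of any variety is a question about
# the size of the `K`-groups

Let `X` be ANY smooth projective variety over a finite field `𝔽_q`. Let `r(n)` be the rank of the group of
all cycles on `X ^ n` modulo numerical equivalence, a number which grows like `b ^ n` up to a power of
`n` (`b` is the sum of the Betti numbers of `X`). Let `k_j(n)` be the dimension of
`K_j(X ^ n)_ℚ = ⨁ H^i(X ^ n, ℚ(m))` (sum over `2 m - i = j`) and `k(n)` the dimension of the total
`K`-group `⨁ H^i(X ^ n, ℚ(m))`, natural numbers or infinity. The conjecture of the question for the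
powers of `X` predicts `k_j(n) = 0` for `j ≠ 0`, and `k(n) = r(n)`.

**Theorem.** No conjecture is assumed.

(1) For each `j` the quotient `k_j(n) / r(n)` converges to a natural number `N_j` or to infinity.
`N_j = 0` if and only if `K_j(X ^ n)_ℚ = 0` for all `n`. If `N_j` is finite then all `K_j(X ^ n)_ℚ` are
finite-dimensional, and all compositions of `N_j` numerically trivial correspondences between powers of
`X` act as zero on them.

(2) The quotient `k(n) / r(n)` converges to a natural number `N ≥ 1` or to infinity, and `N = 1` if and
only if **all the pairings `⟨ , ⟩_{i, m}` of the question are perfect for all powers of `X`**. If `N` is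
finite then the total `K`-groups of all `X ^ n` are finite-dimensional, `K_j(X ^ n)_ℚ = 0` for all `n`
and all `j` with at most `N` exceptions (`j = 0` is one of them), compositions of `N` numerically
trivial correspondences between powers of `X` are zero, and the motive of `X` is finite-dimensional in the
sense of Kimura.

(3) (Zero-one laws.) If the Tate conjecture (strong form) is known for the powers of `X`, then the
limits `N_j`, `j ≠ 0`, are zero or infinity, and `N` is one or infinity. For instance, if `X` is an
ordinary K3 surface (Zarhin proved the Tate conjecture for all its powers; the conjecture of the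
question is open, already for `X`) then either `K_j(X ^ n)_ℚ = 0` for all `n`, or its dimension is not
bounded by a multiple of `r(n)`, not even for infinitely many `n`. Nothing is known or assumed about the
finite-dimensionality of the motive.

(4) (One inequality is sufficient.) Let `n ≥ 128 (m + 1)^2 b^(2 m + 6)`. If `k_j(n) < r(n) / 2` then
`K_j(X ^ m)_ℚ = 0`; if `k(n) < 3 r(n) / 2` then all pairings of the question are perfect for `X ^ m`.

The setting. `C` is the (pseudo-abelian) category of the smooth projective varieties over `𝔽_q` with the
groups `CH^*(X × Y)_ℚ`, all codimensions, as morphisms; `T` is the motive of `X`, `tp T n` that of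
`X ^ n`, and `𝟙_ C ⟶ tp T n` is `CH^*(X ^ n)_ℚ`. `R` is the `ℓ`-adic cohomology with coefficients
extended to an algebraically closed field. `IsPow` says that the endomorphisms of the unit object are
`ℚ`, that the unit object is a summand of `T`, and that the projector to the even cohomology is
algebraic (known for all `X` over finite fields, Katz and Messing); `bt R T` is `b`. The `K`-groups are
given by `MotivicData`, with the known properties `IsMotivicData`: correspondences act on them; the
decomposition by weights; `H^i(X ^ n, ℚ(m)) = 0` for `i > 2 m`; for `j = 0` they are the Chow groups; the cup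
product; the Frobenius endomorphism acts on `H^i(X ^ n, ℚ(m))` by `q ^ m`; the higher `K`-groups of finite
fields are torsion (Quillen). The Tate conjecture is used in the form `Tate` (which follows from the
statement that the order of the pole of the zeta function of `X ^ n` at `m` is the rank of the group of
the cycles of codimension `m` modulo numerical equivalence). `NumTriv`: numerically trivial; `NumPow`:
compositions of numerically trivial morphisms.

For Chow groups (`j = 0`) the law was proved in the starting files (`MP_4960c7_ag.ProductsVanish`). Here it
is applied to the higher `K`-groups, which are the subject of the question for `i ≠ 2 n`.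

Idea of the proof. The law of the dimensions of the values of additive functors on the powers of an
object (`Pool.Agent.N64.AF`) is applied to `K_j`, to the total `K`-group, to its quotient by the Chow
groups and to the numerically trivial cycles. For the zero-one laws: if the limit is finite then each
numerically trivial self-correspondence `y` of `X ^ n` acts in a nilpotent way. By the Tate conjecture
some polynomial in the Frobenius correspondence, which acts as the identity on `H^i(X ^ n, ℚ(m))`, is the
sum of such a `y` and of correspondences which factor through a point, and these are zero on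
`K_j`, `j ≠ 0`, by the theorem of Quillen. So `y` is the identity on `H^i(X ^ n, ℚ(m))`, and nilpotent.
-/

set_option autoImplicit false

namespace Pool.Agent.Results.MP_a9d3bd_ag.AnyVarietyAllPowers

open CategoryTheory MonoidalCategory
open Pool.Agent.Y112.SR Pool.Agent.Y112.KD Pool.Agent.N64.AF Pool.Agent.Zk51.BP

universe v u w

section

variable {C : Type u} [Category.{v} C] [Preadditive C] [MonoidalCategory C]
  [MonoidalPreadditive C] [SymmetricCategory C] [RightRigidCategory C]
  [Linear ℚ C] [MonoidalLinear ℚ C] {T : C} (D : MotivicData T)

/-- The dimension `k_j(n)` of `K_j(X ^ n)_ℚ`, a natural number or infinity. -/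
noncomputable def kj (j n : ℕ) : ℕ∞ := dimE ℚ (D.KX j n)

/-- The dimension `k(n)` of the total `K`-group of `X ^ n`, a natural number or infinity. -/
noncomputable def k (n : ℕ) : ℕ∞ := dimE ℚ (D.V n)

/-- The strong Tate conjecture for all powers of `X`. -/
def TatePowers : Prop := ∀ (n : ℕ) (m : ℤ), D.Tate n m

/-- `K_j(X ^ n)_ℚ = 0` for all `n`. -/
def Vanish (j : ℕ) : Prop := ∀ n, D.KX j n = ⊥

/-- The compositions of `l` numerically trivial correspondences between powers of `X` act as zero on
`K_j`. -/
def KillsK (j l : ℕ) : Prop := ∀ (a b : ℕ) (f : tp T a ⟶ tp T b), NumPow T l f →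
  ∀ x ∈ D.KX j a, D.tot.act f x = 0

/-- The compositions of `l` numerically trivial correspondences between powers of `X` are zero. -/
def NumNilpotent (T : C) (l : ℕ) : Prop :=
  ∀ (a b : ℕ) (f : tp T a ⟶ tp T b), NumPow T l f → f = 0

/-- The groups `K_j(X ^ n)_ℚ` are finite-dimensional. -/
def FiniteK (j : ℕ) : Prop := ∀ n, Module.Finite ℚ (D.KX j n)

/-- The law for the groups `K_j(X ^ n)_ℚ`. -/
def KLaw (j : ℕ) : Prop :=
  ∃ N : ℕ∞, RatioTo ℚ T (kj D j) N ∧ (N = 0 ↔ Vanish D j) ∧
    (∀ l : ℕ, N = l → FiniteK D j ∧ KillsK D j l) ∧
    (TatePowers D → j ≠ 0 → N = 0 ∨ N = ⊤)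

/-- The consequences if the limit for the total `K`-groups is the natural number `l`. -/
def Consequences (l : ℕ) : Prop :=
  (∀ n, Module.Finite ℚ (D.V n)) ∧ (∃ S : Finset ℕ, S.card ≤ l ∧ ∀ j, j ∉ S → Vanish D j) ∧
    NumNilpotent T l ∧ Pool.Agent.R905.IsKimuraFinite T

/-- The law for the total `K`-groups of `X ^ n`. -/
def TotalLaw : Prop :=
  ∃ N : ℕ∞, N ≠ 0 ∧ RatioTo ℚ T (k D) N ∧ (N = 1 ↔ ∀ n, D.AllPerfect n) ∧
    (∀ l : ℕ, N = l → Consequences D l) ∧ (TatePowers D → N = 1 ∨ N = ⊤)

/-- One inequality for `X ^ n` is sufficient for `X ^ m`. -/
def Criterion (m n : ℕ) : Prop :=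
  (∀ j, 2 * kj D j n < numRank ℚ (tp T n) → D.KX j m = ⊥) ∧
    (2 * k D n < 3 * (numRank ℚ (tp T n) : ℕ∞) → D.AllPerfect m)

end

/-- **The size of the `K`-groups of the powers of a variety over a finite field, and the perfectness of
the motivic cup product pairings.** -/
theorem result {C : Type u} [Category.{v} C] [Preadditive C] [MonoidalCategory C]
    [MonoidalPreadditive C] [SymmetricCategory C] [RightRigidCategory C]
    [Linear ℚ C] [MonoidalLinear ℚ C] [IsIdempotentComplete C]
    {K : Type w} [Field K] [IsAlgClosed K] [Algebra ℚ K] (R : SuperRealisation C K)
    (T : C) [ExactPairing T T] (h : IsPow ℚ R T) (D : MotivicData T) (hD : IsMotivicData D) :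
    (∀ j, KLaw D j) ∧ TotalLaw D ∧
      ∀ m n : ℕ, 128 * (m + 1) ^ 2 * bt R T ^ (2 * m + 6) ≤ n → Criterion D m n :=
  ⟨fun j => hD.K_law h j, hD.total_law h, fun _ _ hn => hD.explicit h hn⟩

end Pool.Agent.Results.MP_a9d3bd_ag.AnyVarietyAllPowers
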