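import Mathlib
import Pool.Agent.X303.TBDual
import Pool.Agent.Zk39.NP.Class

/-!
# Perfectness of the motivic cup product pairings for the smooth projective varieties generated by
abelian varieties with rigid slope types

Over an algebraic closure of the field with `p` elements each abelian variety is isogenous to the
reduction of an abelian variety of CM type (Honda, Tate). So an abelian variety over the field with
`p ^ a` elements is modelled by `RedAV`: a finite product of CM types `(E i, Φ i)` with Weil numbers
`π i ∈ E i` that satisfy the formula of Shimura and Taniyama; its cohomology of degree `n`, with
coefficients in an algebraically closed field `Ω`, consists of the alternating `n`-forms on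
`Ω ⊗ H_1`, on which the Frobenius endomorphism acts by `π`. We fix an isomorphism `ν` of the algebraic
closure of `ℚ_p` with `ℂ`; it defines a `p`-adic valuation of `ℂ`, with the value one at `p`.

**Rigid slope types.** Let `E` be a CM field of degree `2 g`, `M` a function with integral values
(zero is allowed) on the complex embeddings of `E`, invariant under complex conjugation, and `Φ` a CM
type of `E`. Together with a real number `κ ≠ 0` they prescribe the slopes `(a + κ M) / 2` (at the
embeddings in `Φ`) and `(a - κ M) / 2` (outside of `Φ`) of a Weil number in `E`; `M` gives the Newton
polygon. The slope type is *rigid* (`Rigid`), for all CM types `Φ` and all fields `E` of degree `2 g`, if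
the weights `M` satisfy one of the following conditions (`NewtonRigid`): one weight is larger than the
sum of the others (absolute values, one out of each conjugate pair); `g = r ^ k` is a power of a prime
number `r`, the sum of the weights (one out of each pair) is odd, and `r = 2` or the sum of the
absolute values is smaller than `r`; or `g` is even and the weights are even at exactly one conjugate
pair. For instance, let `Y` be a simple abelian variety of dimension `g`, whose Frobenius generates a CM
field of degree `2 g`, with `p`-rank `f` and all other slopes equal to `1 / 2` (weights `0` and `1`). It is
rigid if `f = 1` or if `g` is even and `f = g - 1` (for these the Tate conjecture is a theorem of Lenstra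
and Zarhin), if `g = 2 ^ k` and `f` is odd, and if `g = r ^ k` and `f` is odd and smaller than the prime `r`.

Let `u` be the function `M` on `Φ`, `- M` outside of `Φ`. The slope type is also called rigid (`RigidW`) if
some function `w` with integral values, a linear combination with rational coefficients of the
conjugates `φ ↦ u (σ φ)` of `u` (for instance `w = u`), satisfies one of the following conditions:

* (`HasDominant`) one value `|w ψ|` is larger than the sum of the values `|w φ|` over one half of the
  embeddings different from `ψ` and its conjugate;
* (`HasOrbitSum`) some group of automorphisms of `ℂ` has an orbit `O` of `r ^ k` embeddings, `r` a prime
  number, `k ≥ 0`, without conjugate pairs, the sum of `w` over `O` is prime to `r`, and `w` is divisible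
  by `r` outside of `O` and the conjugate of `O`;
* (`HasSignedSums`) some group of automorphisms of `ℂ` has an orbit of `r ^ k` conjugate pairs of
  embeddings, `r` a prime number, no sum of `w` over one element of each pair of the orbit is divisible
  by `r`, and `w` is divisible by `r` outside of the orbit;
* (`HasOneEven`) some group of automorphisms of `ℂ` has an orbit of an even number of conjugate pairs of
  embeddings, and `w` is even outside of the orbit and at exactly one pair of the orbit;

or (`HasOddWeights`) if `[E : ℚ] = 2 ^ (k + 1)`, the discriminant of `E` is not a square and all weights
`M` are odd. Nothing is assumed about the dimension and the Galois group in the first four conditions: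
they are local in the sense that the values of `w` outside of an orbit of prime power length matter
only modulo a prime number. For instance, an ordinary slope type (`M = 1`) is rigid if some
automorphism `σ` moves exactly one element of `Φ` out of `Φ`: put `w = (u - u ∘ σ) / 2`.

Let `𝒞` (`IsRigid`) be the class of the abelian varieties `Y` for which there are finitely many pairwise
independent CM fields `K i` (for `i ≠ k` and all complex embeddings `φ` of `K i` and `ψ` of `K k` some
automorphism of `ℂ` is the identity on `φ (K i)` and the complex conjugation on `ψ (K k)`) with rigid
slope types such that each factor of `Y` is supersingular or has a Frobenius endomorphism some power of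
which is a Weil number in some `K i` with these slopes (with a real number `κ i ≠ 0` that depends only on
`Y` and `i`). So `Y` is, over an algebraic closure, isogenous to a product of powers of one abelian
variety for each `i` and of a supersingular one.

`Homology Ω V` are data of motivic homology `M X i j = H_i^M(X, ℚ(j)) = CH_j(X, i - 2 j) ⊗ ℚ` and of
`ℓ`-adic homology `E X i j = H_i(X, ℚ_ℓ(j))` (coefficients extended to `Ω`) of schemes `X` of finite
type over a finite field (the elements of `V`), with the Frobenius and the regulator. Let `𝒢` be the
smallest class (`Generated`) of such schemes that contains those with the homology groups of abelian
varieties in `𝒞` (`IsRigidAbelian`) and those for which the conjecture `TB` of Tate, Beilinson and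
Jannsen is known otherwise (such as curves, products of at most three curves, abelian varieties of
dimension at most five), that is closed under direct summands of finite sums of twists of motives, and
that contains all of a closed subscheme `Z` of `X`, `X` and `X ∖ Z` if it contains two of them. It
contains for instance all products of curves with Jacobians whose product is in `𝒞` and of open
subsets of such curves, symmetric powers of them, and the singular and the open varieties with a
stratification by such varieties.

**Theorem.** For all smooth projective varieties `X` in `𝒢` of dimension `d` the pairings, given by the
cup product and the degree map (`CupData`, `IsCup`: compatible with the ones in `ℓ`-adic cohomology, for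
which Poincaré duality holds), of `M X a b = H^(2 d - a)(X, ℚ(d - b))` and
`M X (2 d - a) (d - b) = H^a(X, ℚ(b))` are perfect for all `a` and `b`.

Properties of the theory of cycles that are used for the abelian varieties (`IsChow`,
`IsMotivic`): Poincaré duality, the formal properties of correspondences, the nilpotence of
homologically trivial correspondences (Kimura), the operation of the Frobenius endomorphism on higher
Chow groups, the vanishing of the higher rational `K`-groups of a finite field (Quillen), and the
algebraicity of the classes in `Alg` (of which only products of classes of divisors matter here,
theorem of Tate). The passage from the Tate conjecture to all degrees and to the class `Generated` is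
due to Soulé, Geisser, Kahn and Jannsen.

The proof. If there are relations between the Frobenius eigenvalues that are not generated by those
of the complex conjugate pairs, then there is a nonzero odd integral function `c` on the embeddings of
one of the fields all of whose conjugates are orthogonal to `u`, hence to `w`. We may assume that `c` is
not divisible by `r` at the given orbit. Modulo `r`, only the values at the orbit matter; the odd
functions modulo `r` on the orbit that are orthogonal to the conjugates of `w` under the Sylow subgroup
are stable under it and not all zero, so one of them is fixed by it and therefore constant, up to
signs, on the orbit; this contradicts the condition on the sums. The starting files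
(`MP_0d42ed_ag.PrimePowerCentre`, `MP_0d42ed_ag.DominantSlope`, `MP_021685_ag.TowersOfCMFields`,
`MP_ee618e_ag.IndependentDiscriminants`) contain the global forms, for `w = u` and fields of degree
`2 r ^ k`, of these conditions, for the Tate conjecture.
-/

set_option autoImplicit false

namespace Pool.Agent.Results.MP_a9d3bd_ag.RigidSlopes

open Pool.Agent.W495.TA Pool.Agent.W495.FM Pool.Agent.X303.TBDual Pool.Agent.Zk39.NP

/-- **The motivic cup product pairings of all smooth projective varieties generated by abelian
varieties with rigid slope types are perfect**, for instance by those with one dominant slope, those
whose Frobenius generates a field of degree `2 ^ (k + 1)` with an odd sum of the weights, and those of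
even dimension with exactly one even weight. -/
theorem result :
    ∀ (p : ℕ) [Fact p.Prime] (ν : PadicAlgCl p ≃+* ℂ) (Ω : Type) [Field Ω] [IsAlgClosed Ω]
      [CharZero Ω] (V : Type) (T : Homology Ω V), IsHomology T → ∀ X : V,
      Generated T (fun Y => IsRigidAbelian p ν T Y ∨ TB T Y) X →
        ∀ (d : ℤ) (D : CupData T X d), IsCup D → ∀ a b : ℤ, IsPerfect (D.cup a b) := by
  intro p _ ν Ω _ _ _ V T hT X hX d D hD a b
  exact perfect hT (tb_rigid hT hX) hD a b

end Pool.Agent.Results.MP_a9d3bd_ag.RigidSlopes
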